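import Pool.Agent.T2H72.Sch.Pos

/-!
# Isometric embeddings between the Schatten classes of an infinite dimensional Hilbert space

For every pair `(q, p)` in `R = ((0,∞] × (0,1)) ∪ ((1,4) × {1}) ∪ ((1,2) × {∞})` with `q ≠ p`, the
Schatten class `S_q(H)` embeds linearly and isometrically into `S_p(H)` exactly when `q = 2`.
-/

set_option autoImplicit false
open scoped ENNReal

namespace Pool.Agent.Results.MP_dcad15_an.IsometricEmbeddings

open Pool.Agent.T2H72.Sch

/-- **Full answer to Q1.** `H` is a separable infinite dimensional complex Hilbert space and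
`(q, p) ∈ R`, `p ≠ q`. There is a linear map `J : S_q(H) → S_p(H)` with `‖J T‖_p = ‖T‖_q` for all
`T` if and only if `q = 2`. -/
theorem result {H : Type*} [NormedAddCommGroup H] [InnerProductSpace ℂ H] [CompleteSpace H]
    [TopologicalSpace.SeparableSpace H] (hH : ¬ FiniteDimensional ℂ H) {q p : ℝ≥0∞}
    (hR : (0 < q ∧ 0 < p ∧ p < 1) ∨ (1 < q ∧ q < 4 ∧ p = 1) ∨ (1 < q ∧ q < 2 ∧ p = ∞))
    (hne : p ≠ q) :
    (∃ J : Schatten H q →ₗ[ℂ] Schatten H p,
      ∀ T : Schatten H q,
        schattenNorm p (J T : H →L[ℂ] H) = schattenNorm q (T : H →L[ℂ] H)) ↔ q = 2 := by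
  obtain ⟨b⟩ := exists_basis hH
  have hq0 : q ≠ 0 := by
    rcases hR with h | h | h
    · exact h.1.ne'
    · exact (lt_trans zero_lt_one h.1).ne'
    · exact (lt_trans zero_lt_one h.1).ne'
  have hp0 : p ≠ 0 := by
    rcases hR with h | h | h
    · exact h.2.1.ne'
    · rw [h.2.2]; exact one_ne_zero
    · rw [h.2.2]; exact ENNReal.top_ne_zero
  have hp : p < 2 ∨ p = ∞ := by
    rcases hR with h | h | h
    · exact Or.inl (lt_trans h.2.2 ENNReal.one_lt_two)
    · left; rw [h.2.2]; exact ENNReal.one_lt_two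
    · exact Or.inr h.2.2
  constructor
  · rintro ⟨J, hJ⟩
    by_contra hq2
    exact no_embedding b hq0 hp0 hp (Ne.symm hne) hq2 J hJ
  · rintro rfl
    exact exists_embedding_two b hp0

end Pool.Agent.Results.MP_dcad15_an.IsometricEmbeddings
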